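import Pool.Agent.K6.H18.AJ.Main

/-!
# Complements in varieties with algebraic Deligne cohomology
-/

set_option autoImplicit false
set_option linter.unusedSectionVars false
set_option backward.isDefEq.respectTransparency false
set_option backward.defeqAttrib.useBackward true

open CategoryTheory Limits Pretriangulated ZeroObject

namespace Pool.Agent.K6.H18.AJ

universe v u v' u' w

/-- `T` behaves like the motive of a variety with a cellular decomposition: every morphism from the
unit to the realisation of `T` comes from a morphism to `T`, the cohomology is finite dimensional,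
and a nonzero morphism from the unit to `T` has a nonzero composition with some morphism from `T` to
the unit. -/
structure IsCellular {C : Type u} [Category.{v} C] [Preadditive C] {D : Type u'} [Category.{v'} D]
    {E : Type w} [Field E] (ρ : C ⥤ D) (H : D ⥤ ModuleCat.{w} E) (I T : C) : Prop where
  algebraic : AllAlgebraic ρ I T
  finite : Module.Finite E (H.obj (ρ.obj T))
  perfect (z : I ⟶ T) : z ≠ 0 → ∃ σ : T ⟶ I, z ≫ σ ≠ 0

section

variable {C : Type u} [Category.{v} C] [Preadditive C] [HasZeroObject C] [HasShift C ℤ]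
  [∀ n : ℤ, (shiftFunctor C n).Additive] [Pretriangulated C] [Linear ℚ C]
  {D : Type u'} [Category.{v'} D] [Preadditive D] [HasZeroObject D] [HasShift D ℤ]
  [∀ n : ℤ, (shiftFunctor D n).Additive] [Pretriangulated D]
  {E : Type w} [Field E] [CharZero E] {ρ : C ⥤ D} [ρ.CommShift ℤ]
  [ρ.IsTriangulated] {H : D ⥤ ModuleCat.{w} E} [H.Additive] {I : C} {P : C → Prop}
  (h : IsHodge ρ H I P)

include h

/-- Injectivity for the cone of `R ⟶ T`, where `T` is cellular and `R` has a resolution with first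
term `M`, is equivalent to the equality of homological and numerical equivalence for the classes
on `M` which are pulled back from `T`. -/
theorem cellular_iff {R₂ M R T N : C} {r₂ : R₂ ⟶ M} {q : M ⟶ R} {δ₂ : R ⟶ R₂⟦(1 : ℤ)⟧}
    {r : R ⟶ T} {p : T ⟶ N} {δ : N ⟶ R⟦(1 : ℤ)⟧} (hT : IsCellular ρ H I T) (hM : P M)
    (hR₂ : Resolved P R₂) (h₂ : Triangle.mk r₂ q δ₂ ∈ distTriang C)
    (h₁ : Triangle.mk r p δ ∈ distTriang C) :
    Injective ρ I N ↔ ∀ σ : T ⟶ I, H.map (ρ.map (q ≫ r ≫ σ)) ≠ 0 →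
      ∃ y : I ⟶ M, y ≫ q ≫ r ≫ σ ≠ 0 := by
  have hR : Resolved P R := Resolved.cone h₂ hM hR₂
  have hrp : r ≫ p = 0 := comp_distTriang_mor_zero₁₂ _ h₁
  constructor
  · intro hinj σ hσ
    obtain ⟨η, hη⟩ := h.polarised hM (q ≫ r ≫ σ) hσ
    obtain ⟨w, hw⟩ := hT.algebraic (η ≫ ρ.map (q ≫ r))
    have h1 : w ≫ p = 0 := by
      apply hinj
      rw [Functor.map_comp, hw, Category.assoc, ← Functor.map_comp, Category.assoc, hrp, comp_zero,
        Functor.map_zero, comp_zero]
    obtain ⟨y', hy'⟩ := Triangle.coyoneda_exact₂ _ h₁ w h1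
    obtain ⟨y, rfl⟩ := NoPos.lift h₂ (noPos_motive h hR₂) y'
    refine ⟨y, fun h2 => hη ?_⟩
    have h3 : w ≫ σ = 0 := by
      rw [hy']
      change ((y ≫ q) ≫ r) ≫ σ = 0
      rw [Category.assoc, Category.assoc, h2]
    have h4 : η ≫ ρ.map (q ≫ r ≫ σ) = (η ≫ ρ.map (q ≫ r)) ≫ ρ.map σ := by
      rw [Category.assoc, ← Functor.map_comp, Category.assoc]
    rw [h4, ← hw, ← Functor.map_comp, h3, Functor.map_zero]
  · intro hnum z hz
    obtain ⟨z₀, rfl⟩ := NoPos.lift h₁ (noPos_motive h hR) z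
    obtain ⟨ζ, hζ⟩ := Triangle.coyoneda_exact₂ _ (map_dist (ρ := ρ) h₁) (ρ.map z₀)
      (by rw [Functor.map_comp] at hz; exact hz)
    obtain ⟨η, rfl⟩ := NoPos.lift (map_dist (ρ := ρ) h₂) (noPos_hodge h hR₂) ζ
    have hη : ρ.map z₀ = η ≫ ρ.map (q ≫ r) := by
      rw [hζ, Functor.map_comp, ← Category.assoc]
      rfl
    have : Module.Finite E ((ρ ⋙ H).obj T) := hT.finite
    have : Module.Finite E ((ρ ⋙ H).obj I) := h.finite h.unit
    have hD : ∀ z : I ⟶ T, (ρ ⋙ H).map z ≠ 0 → ∃ f : T ⟶ I, z ≫ f ≠ 0 := fun z hz' =>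
      hT.perfect z (fun h0 => hz' (by rw [h0, Functor.map_zero]))
    obtain ⟨s, ⟨y, rfl⟩, hs⟩ := exists_sub (F := ρ ⋙ H) h.nontrivial h.scalar hD
      (LinearMap.range (Linear.rightComp ℚ I (q ≫ r))) z₀ (by
        intro f hf
        have h1 : H.map (ρ.map (q ≫ r ≫ f)) = 0 := by
          by_contra h0
          obtain ⟨y, hy⟩ := hnum f h0
          apply hy
          have h2 := hf _ ⟨y, rfl⟩
          change (y ≫ q ≫ r) ≫ f = 0 at h2
          simpa only [Category.assoc] using h2
        refine eq_zero_of_unit (F := ρ ⋙ H) h.nontrivial h.scalar _ ?_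
        have h2 : ρ.map (z₀ ≫ f) = η ≫ ρ.map (q ≫ r ≫ f) := by
          rw [Functor.map_comp, hη, Category.assoc, ← Functor.map_comp, Category.assoc]
        change H.map (ρ.map (z₀ ≫ f)) = 0
        rw [h2, Functor.map_comp, h1, comp_zero])
    have h1 : z₀ - Linear.rightComp ℚ I (q ≫ r) y = 0 := by
      by_contra h0
      obtain ⟨σ, hσ⟩ := hT.perfect _ h0
      apply hσ
      refine eq_zero_of_unit (F := ρ ⋙ H) h.nontrivial h.scalar _ ?_
      rw [Functor.map_comp, hs, zero_comp]
    rw [sub_eq_zero] at h1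
    rw [h1]
    change (y ≫ q ≫ r) ≫ p = 0
    rw [Category.assoc, Category.assoc, hrp, comp_zero, comp_zero]

end

end Pool.Agent.K6.H18.AJ
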