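import Mathlib

/-!
# Mixed motives over the algebraic numbers and their Hodge realisation: the setting
-/

set_option autoImplicit false

open CategoryTheory Limits Pretriangulated

namespace Pool.Agent.K6.H18.AJ

universe v u v' u' w

section

variable {C : Type u} [Category.{v} C] [Preadditive C] [HasZeroObject C] [HasShift C ℤ]
  [∀ n : ℤ, (shiftFunctor C n).Additive] [Pretriangulated C]

/-- The objects with a finite resolution by objects of `P`: zero objects, and the cones `N` of the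
morphisms `R ⟶ M` with `M` in `P` and `R` again of this kind. -/
inductive Resolved (P : C → Prop) : C → Prop
  | zero {N : C} : IsZero N → Resolved P N
  | cone {R M N : C} {r : R ⟶ M} {p : M ⟶ N} {δ : N ⟶ R⟦(1 : ℤ)⟧} :
      Triangle.mk r p δ ∈ distTriang C → P M → Resolved P R → Resolved P N

/-- `M'` is a dual of `M`, as far as the morphisms from and to the unit `I` and their cohomology
are concerned (Poincaré duality). -/
def IsDual {E : Type w} [Field E] (F : C ⥤ ModuleCat.{w} E) (I M M' : C) : Prop :=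
  ∃ (a : (I ⟶ M) ≃ (M' ⟶ I)) (b : (M ⟶ I) ≃ (I ⟶ M')),
    (∀ x y, x ≫ y = b y ≫ a x) ∧ (∀ x, F.map x = 0 ↔ F.map (a x) = 0) ∧
    ∀ y, F.map y = 0 ↔ F.map (b y) = 0

/-- Homological and numerical equivalence agree: a morphism `I ⟶ M` to an object of `P` which is
nonzero in cohomology has a nonzero composition with some `M ⟶ I`. -/
def HomEqNum {E : Type w} [Field E] (F : C ⥤ ModuleCat.{w} E) (I : C) (P : C → Prop) : Prop :=
  ∀ M : C, P M → ∀ x : I ⟶ M, F.map x ≠ 0 → ∃ y : M ⟶ I, x ≫ y ≠ 0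

variable {D : Type u'} [Category.{v'} D] [Preadditive D] [HasShift D ℤ]

/-- The properties of the Hodge realisation `ρ`, for the unit object `I`, the class `P` of Chow
motives, and the cohomology `H`. -/
structure IsHodge [Linear ℚ C] {E : Type w} [Field E] (ρ : C ⥤ D) (H : D ⥤ ModuleCat.{w} E)
    (I : C) (P : C → Prop) : Prop where
  unit : P I
  scalar (f : I ⟶ I) : ∃ q : ℚ, f = q • 𝟙 I
  nontrivial : Nontrivial (H.obj (ρ.obj I))
  finite {M : C} : P M → Module.Finite E (H.obj (ρ.obj M))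
  dual {M : C} : P M → ∃ M', P M' ∧ IsDual (ρ ⋙ H) I M M'
  motive {M : C} : P M → ∀ n : ℤ, 0 < n → ∀ f : I ⟶ M⟦n⟧, f = 0
  hodge {M : C} : P M → ∀ n : ℤ, 0 < n → ∀ f : ρ.obj I ⟶ (ρ.obj M)⟦n⟧, f = 0
  polarised {M : C} : P M → ∀ f : M ⟶ I, H.map (ρ.map f) ≠ 0 →
    ∃ η : ρ.obj I ⟶ ρ.obj M, η ≫ ρ.map f ≠ 0

/-- Every morphism from the unit to the realisation of `T` is the realisation of a morphism. -/
def AllAlgebraic (ρ : C ⥤ D) (I T : C) : Prop :=
  ∀ x : ρ.obj I ⟶ ρ.obj T, ∃ w : I ⟶ T, ρ.map w = x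

/-- The class `V` consists of resolved objects, and each morphism `f` from an object `M` of `P` to
the unit becomes, on an object `M'` of `P` of which `M` is a direct summand, the composition of a
morphism `g : M' ⟶ T` with a cone in `V`, where every class on `T` is algebraic, and a morphism
`T ⟶ I`. -/
structure IsOpenClass (ρ : C ⥤ D) (I : C) (P V : C → Prop) : Prop where
  resolved {N : C} : V N → Resolved P N
  embed {M : C} : P M → ∀ f : M ⟶ I, ∃ (M' T N : C) (i : M ⟶ M') (r : M' ⟶ M) (g : M' ⟶ T)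
    (p : T ⟶ N) (δ : N ⟶ M'⟦(1 : ℤ)⟧) (σ : T ⟶ I), i ≫ r = 𝟙 M ∧ r ≫ f = g ≫ σ ∧
    P M' ∧ AllAlgebraic ρ I T ∧ V N ∧ Triangle.mk g p δ ∈ distTriang C

/-- The realisation is injective on the morphisms from the unit to `N`. -/
def Injective (ρ : C ⥤ D) (I N : C) : Prop :=
  ∀ z : I ⟶ N, ρ.map z = 0 → z = 0

/-- The realisation is injective on those morphisms from the unit to `N` which come from a
cohomologically trivial morphism from the unit to an object of `P`. -/
def InjectiveHom {E : Type w} [Field E] (ρ : C ⥤ D) (H : D ⥤ ModuleCat.{w} E) (I : C)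
    (P : C → Prop) (N : C) : Prop :=
  ∀ M : C, P M → ∀ (z : I ⟶ M) (p : M ⟶ N), H.map (ρ.map z) = 0 → ρ.map (z ≫ p) = 0 → z ≫ p = 0

end

end Pool.Agent.K6.H18.AJ
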