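import Pool.Agent.K6.H18.AJ.Tri

/-!
# The Abel-Jacobi map of open varieties and the standard conjecture D: proofs
-/

set_option autoImplicit false
set_option linter.unusedSectionVars false
set_option linter.unusedSimpArgs false
set_option backward.isDefEq.respectTransparency false
set_option backward.defeqAttrib.useBackward true

open CategoryTheory Limits Pretriangulated ZeroObject

namespace Pool.Agent.K6.H18.AJ

universe v u v' u' w

section

variable {C : Type u} [Category.{v} C] [Preadditive C] [Linear ℚ C] {I : C}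
  {E : Type w} [Field E] [CharZero E] {F : C ⥤ ModuleCat.{w} E} [F.Additive] {P : C → Prop}

lemma scalar_eq_zero (hn : Nontrivial (F.obj I)) (q : ℚ) (h : F.map (q • 𝟙 I) = 0) : q = 0 := by
  have h1 : (q.den : ℤ) • (q • 𝟙 I) = q.num • 𝟙 I := by
    rw [← Int.cast_smul_eq_zsmul ℚ, ← Int.cast_smul_eq_zsmul ℚ, smul_smul]
    congr 1
    push_cast
    rw [mul_comm]
    exact Rat.mul_den_eq_num q
  have h2 : (q.den : ℤ) • F.map (q • 𝟙 I) = q.num • F.map (𝟙 I) := by
    rw [← Functor.map_zsmul, ← Functor.map_zsmul, h1]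
  rw [h, smul_zero, CategoryTheory.Functor.map_id] at h2
  have h3 := congrArg ModuleCat.Hom.hom h2
  obtain ⟨x, hx⟩ := exists_ne (0 : F.obj I)
  have h4 : (0 : F.obj I) = q.num • x := LinearMap.congr_fun h3 x
  rw [← Int.cast_smul_eq_zsmul E] at h4
  rcases smul_eq_zero.1 h4.symm with h5 | h5
  · rwa [Int.cast_eq_zero, Rat.num_eq_zero] at h5
  · exact absurd h5 hx

lemma eq_zero_of_unit (hn : Nontrivial (F.obj I)) (hu : ∀ f : I ⟶ I, ∃ q : ℚ, f = q • 𝟙 _)
    (f : I ⟶ I) (hf : F.map f = 0) : f = 0 := by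
  obtain ⟨q, rfl⟩ := hu f
  rw [scalar_eq_zero hn q hf, zero_smul]

/-- A class which is orthogonal to all functionals vanishing on the subspace `S` is
cohomologically equivalent to an element of `S`. -/
lemma exists_sub (hn : Nontrivial (F.obj I)) (hu : ∀ f : I ⟶ I, ∃ q : ℚ, f = q • 𝟙 _)
    {M : C} [Module.Finite E (F.obj M)] [Module.Finite E (F.obj I)]
    (hD : ∀ z : I ⟶ M, F.map z ≠ 0 → ∃ f : M ⟶ I, z ≫ f ≠ 0)
    (S : Submodule ℚ (I ⟶ M)) (z₀ : I ⟶ M)
    (hz : ∀ f : M ⟶ I, (∀ s ∈ S, s ≫ f = 0) → z₀ ≫ f = 0) :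
    ∃ s ∈ S, F.map (z₀ - s) = 0 := by
  classical
  choose q hq using hu
  have hq0 : ∀ f : I ⟶ I, q f = 0 → f = 0 := fun f hf => by rw [hq f, hf, zero_smul]
  have hq1 : ∀ r s : ℚ, r • 𝟙 I = s • 𝟙 I → r = s := by
    intro r s hrs
    refine sub_eq_zero.1 (scalar_eq_zero (F := F) hn _ ?_)
    rw [sub_smul, hrs, sub_self, Functor.map_zero]
  have hqa : ∀ f g : I ⟶ I, q (f + g) = q f + q g := fun f g => by
    apply hq1
    rw [← hq, add_smul, ← hq, ← hq]
  have hqs : ∀ (c : ℚ) (f : I ⟶ I), q (c • f) = c * q f := fun c f => by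
    apply hq1
    rw [← hq, mul_smul, ← hq]
  -- a finite family of functionals spanning all of them over `E` in cohomology
  let A : (M ⟶ I) → (F.obj M →ₗ[E] F.obj I) := fun f => (F.map f).hom
  have hfin : (Submodule.span E (Set.range A)).FG := IsNoetherian.noetherian _
  obtain ⟨t, ht, htA⟩ := Submodule.fg_span_iff_fg_span_finset_subset _ |>.1 hfin
  choose! φ hφ using fun a (ha : a ∈ t) => ht ha
  let Ψ : (I ⟶ M) →ₗ[ℚ] (t → ℚ) :=
    { toFun := fun z a => q (z ≫ φ a)
      map_add' := fun x y => by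
        funext a
        change q ((x + y) ≫ φ a) = q (x ≫ φ a) + q (y ≫ φ a)
        rw [Preadditive.add_comp, hqa]
      map_smul' := fun c x => by
        funext a
        change q ((c • x) ≫ φ a) = c * q (x ≫ φ a)
        rw [Linear.smul_comp, hqs] }
  by_cases hmem : Ψ z₀ ∈ S.map Ψ
  · obtain ⟨s, hs, hsz⟩ := hmem
    refine ⟨s, hs, ?_⟩
    by_contra hne
    obtain ⟨f, hf⟩ := hD _ hne
    apply hf
    refine eq_zero_of_unit (F := F) hn (fun f => ⟨q f, hq f⟩) _ ?_
    have h1 : ∀ a : t, (z₀ - s) ≫ φ a = 0 := by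
      intro a
      apply hq0
      have h2 := congrFun hsz a
      change q (s ≫ φ a) = q (z₀ ≫ φ a) at h2
      have h3 : (z₀ - s) ≫ φ a = z₀ ≫ φ a + (-1 : ℚ) • (s ≫ φ a) := by
        rw [Preadditive.sub_comp, neg_smul, one_smul, sub_eq_add_neg]
      rw [h3, hqa, hqs, h2]
      ring
    have h4 : A f ∈ Submodule.span E (t : Set (F.obj M →ₗ[E] F.obj I)) := by
      rw [← htA]
      exact Submodule.subset_span ⟨f, rfl⟩
    have h5 : ∀ b ∈ Submodule.span E (t : Set (F.obj M →ₗ[E] F.obj I)),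
        b ∘ₗ (F.map (z₀ - s)).hom = 0 := by
      intro b hb
      induction hb using Submodule.span_induction with
      | mem x hx =>
        have h6 := h1 ⟨x, hx⟩
        have h7 : A (φ x) = x := hφ x hx
        rw [← h7]
        have h8 := congrArg (fun e => (F.map e).hom) h6
        simp only [Functor.map_comp, Functor.map_zero] at h8
        exact h8
      | zero => rw [LinearMap.zero_comp]
      | add x y _ _ hx hy => rw [LinearMap.add_comp, hx, hy, add_zero]
      | smul c x _ hx => rw [LinearMap.smul_comp, hx, smul_zero]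
    have h6 := h5 _ h4
    rw [Functor.map_comp]
    apply ModuleCat.hom_ext
    exact h6
  · exfalso
    obtain ⟨l, hl1, hl2⟩ := Submodule.exists_le_ker_of_notMem hmem
    let f : M ⟶ I := ∑ a : t, l (Pi.single a 1) • φ a
    have hqsum : ∀ (s : Finset t) (F : t → (I ⟶ I)), q (∑ a ∈ s, F a) = ∑ a ∈ s, q (F a) := by
      intro s F
      induction s using Finset.induction_on with
      | empty =>
        rw [Finset.sum_empty, Finset.sum_empty]
        apply hq1
        rw [← hq, zero_smul]
      | insert a s ha ih => rw [Finset.sum_insert ha, Finset.sum_insert ha, hqa, ih]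
    have hf : ∀ z : I ⟶ M, q (z ≫ f) = l (Ψ z) := by
      intro z
      have h1 : z ≫ f = ∑ a : t, l (Pi.single a 1) • (z ≫ φ a) := by
        rw [Preadditive.comp_sum]
        exact Finset.sum_congr rfl fun a _ => by rw [Linear.comp_smul]
      rw [h1, hqsum, LinearMap.pi_apply_eq_sum_univ l (Ψ z)]
      refine Finset.sum_congr rfl fun a _ => ?_
      rw [hqs, smul_eq_mul, mul_comm]
      congr 2
      funext j
      by_cases hj : j = a
      · subst hj
        simp
      · rw [Pi.single_eq_of_ne hj, if_neg (fun h => hj h.symm)]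
    apply hl1
    rw [← hf, hz f]
    · apply hq1
      rw [← hq, zero_smul]
    · intro s hs
      apply hq0
      rw [hf]
      exact hl2 (Submodule.mem_map_of_mem hs)

/-- The second form of the standard conjecture D. -/
def NumHom (F : C ⥤ ModuleCat.{w} E) (I : C) (P : C → Prop) : Prop :=
  ∀ M : C, P M → ∀ f : M ⟶ I, F.map f ≠ 0 → ∃ y : I ⟶ M, y ≫ f ≠ 0

omit [Linear ℚ C] [CharZero E] [F.Additive] in
lemma numHom_of_homEqNum (hP : ∀ {M}, P M → ∃ M', P M' ∧ IsDual F I M M')
    (hD : HomEqNum F I P) : NumHom F I P := by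
  intro M hM f hf
  obtain ⟨M', hM', a, b, hab, _, hb⟩ := hP hM
  obtain ⟨g, hg⟩ := hD _ hM' (b f) (fun h0 => hf ((hb f).2 h0))
  refine ⟨a.symm g, ?_⟩
  rw [hab, Equiv.apply_symm_apply]
  exact hg

omit [Linear ℚ C] [CharZero E] [F.Additive] in
lemma homEqNum_of_numHom (hP : ∀ {M}, P M → ∃ M', P M' ∧ IsDual F I M M')
    (hD : NumHom F I P) : HomEqNum F I P := by
  intro M hM z hz
  obtain ⟨M', hM', a, b, hab, ha, _⟩ := hP hM
  obtain ⟨y, hy⟩ := hD _ hM' (a z) (fun h0 => hz ((ha z).2 h0))
  refine ⟨b.symm y, ?_⟩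
  rw [hab, Equiv.apply_symm_apply]
  exact hy

end

section

variable {C : Type u} [Category.{v} C] [Preadditive C] [HasZeroObject C] [HasShift C ℤ]
  [∀ n : ℤ, (shiftFunctor C n).Additive] [Pretriangulated C] [Linear ℚ C]
  {D : Type u'} [Category.{v'} D] [Preadditive D] [HasZeroObject D] [HasShift D ℤ]
  [∀ n : ℤ, (shiftFunctor D n).Additive] [Pretriangulated D]
  {E : Type w} [Field E] [CharZero E] {ρ : C ⥤ D} [ρ.CommShift ℤ]
  [ρ.IsTriangulated] {H : D ⥤ ModuleCat.{w} E} [H.Additive] {I : C} {P V : C → Prop}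
  (h : IsHodge ρ H I P)

include h

/-- The special case of the Abel-Jacobi map gives the second form of the standard conjecture D. -/
lemma numHom_of_injective (hV : IsOpenClass ρ I P V) (hinj : ∀ N, V N → Injective ρ I N) :
    NumHom (ρ ⋙ H) I P := by
  intro M hM f hf
  obtain ⟨M', T, N, i, r, g, p, δ, σ, hir, hrf, hM', hT, hN, hd⟩ := hV.embed hM f
  have hf' : H.map (ρ.map (r ≫ f)) ≠ 0 := by
    intro h0
    apply hf
    change H.map (ρ.map f) = 0
    rw [← Category.id_comp f, ← hir, Category.assoc, Functor.map_comp, Functor.map_comp, h0,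
      comp_zero]
  obtain ⟨η, hη⟩ := h.polarised hM' (r ≫ f) hf'
  obtain ⟨w, hw⟩ := hT (η ≫ ρ.map g)
  have hgp : g ≫ p = 0 := comp_distTriang_mor_zero₁₂ _ hd
  have h1 : w ≫ p = 0 := by
    apply hinj N hN
    rw [Functor.map_comp, hw, Category.assoc, ← Functor.map_comp, hgp, Functor.map_zero, comp_zero]
  obtain ⟨y, hy⟩ := Triangle.coyoneda_exact₂ _ hd w h1
  refine ⟨y ≫ r, fun h2 => hη ?_⟩
  have h3 : w ≫ σ = 0 := by
    rw [hy]
    change (y ≫ g) ≫ σ = 0
    rw [Category.assoc, ← hrf, ← Category.assoc, h2]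
  rw [hrf, Functor.map_comp, ← Category.assoc, ← hw, ← Functor.map_comp, h3, Functor.map_zero]

/-- The standard conjecture D and injectivity on the classes which extend to cohomologically
trivial classes imply injectivity. -/
lemma injective_of {N : C} (hN : Resolved P N) (hD : HomEqNum (ρ ⋙ H) I P)
    (hI : InjectiveHom ρ H I P N) : Injective ρ I N := by
  intro z hz
  obtain ⟨M', M, g, p, z₀, η, hM', hM, hgp, rfl, hη⟩ := exists_lift h hN z hz
  have hD' := numHom_of_homEqNum h.dual hD
  have := h.finite hM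
  have := h.finite h.unit
  have : Module.Finite E ((ρ ⋙ H).obj M) := h.finite hM
  have : Module.Finite E ((ρ ⋙ H).obj I) := h.finite h.unit
  obtain ⟨s, ⟨y, rfl⟩, hs⟩ := exists_sub (F := ρ ⋙ H) h.nontrivial h.scalar (hD M hM)
    (LinearMap.range (Linear.rightComp ℚ I g)) z₀ (by
      intro f hf
      have h1 : H.map (ρ.map (g ≫ f)) = 0 := by
        by_contra h0
        obtain ⟨y, hy⟩ := hD' M' hM' (g ≫ f) h0
        apply hy
        rw [← Category.assoc]
        exact hf _ ⟨y, rfl⟩
      refine eq_zero_of_unit (F := ρ ⋙ H) h.nontrivial h.scalar _ ?_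
      have h2 : ρ.map (z₀ ≫ f) = η ≫ ρ.map (g ≫ f) := by
        rw [Functor.map_comp, hη, Functor.map_comp, Category.assoc]
      change H.map (ρ.map (z₀ ≫ f)) = 0
      rw [h2, Functor.map_comp, h1, comp_zero])
  have h1 : (z₀ - Linear.rightComp ℚ I g y) ≫ p = z₀ ≫ p := by
    change (z₀ - y ≫ g) ≫ p = z₀ ≫ p
    rw [Preadditive.sub_comp, Category.assoc, hgp, comp_zero, sub_zero]
  rw [← h1] at hz ⊢
  exact hI M hM _ p hs hz

/-- The Abel-Jacobi map is injective for all open varieties if and only if the standard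
conjecture D holds and it is injective on the cycles which extend to homologically trivial
cycles. -/
theorem injective_iff (hV : IsOpenClass ρ I P V) :
    (∀ N, V N → Injective ρ I N) ↔
      HomEqNum (ρ ⋙ H) I P ∧ ∀ N, V N → InjectiveHom ρ H I P N := by
  constructor
  · intro hinj
    exact ⟨homEqNum_of_numHom h.dual (numHom_of_injective h hV hinj),
      fun N hN M _ z p _ hz => hinj N hN _ hz⟩
  · rintro ⟨hD, hI⟩ N hN
    exact injective_of h (hV.resolved hN) hD (hI N hN)

end

end Pool.Agent.K6.H18.AJ
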