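import Pool.Agent.K6.H18.AJ.Defs

/-!
# Resolved objects
-/

set_option autoImplicit false
set_option linter.unusedSectionVars false
set_option linter.unusedSimpArgs false
set_option backward.isDefEq.respectTransparency false
set_option backward.defeqAttrib.useBackward true

open CategoryTheory Limits Pretriangulated ZeroObject

namespace Pool.Agent.K6.H18.AJ

universe v u v' u' w

section

variable {C : Type u} [Category.{v} C] [Preadditive C] [HasZeroObject C] [HasShift C ℤ]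
  [∀ n : ℤ, (shiftFunctor C n).Additive] [Pretriangulated C]

/-- There are no morphisms from `X` to the positive shifts of `N`. -/
def NoPos (X N : C) : Prop := ∀ n : ℤ, 0 < n → ∀ f : X ⟶ N⟦n⟧, f = 0

lemma NoPos.of_isZero {X N : C} (h : IsZero N) : NoPos X N := fun n _ _ =>
  ((shiftFunctor C n).map_isZero h).eq_of_tgt _ _

lemma NoPos.cone {X R M N : C} {r : R ⟶ M} {p : M ⟶ N} {δ : N ⟶ R⟦(1 : ℤ)⟧}
    (hT : Triangle.mk r p δ ∈ distTriang C) (hM : NoPos X M) (hR : NoPos X R) : NoPos X N := by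
  intro n hn f
  have hT' := Triangle.shift_distinguished _ hT n
  have h1 : f ≫ ((Triangle.shiftFunctor C n).obj (Triangle.mk r p δ)).mor₃ = 0 := by
    have h2 : ∀ g : X ⟶ (R⟦n⟧)⟦(1 : ℤ)⟧, g = 0 := by
      intro g
      have h3 := hR (n + 1) (by omega) (g ≫ (shiftFunctorAdd C n 1).inv.app R)
      rw [← cancel_mono ((shiftFunctorAdd C n 1).inv.app R), h3, zero_comp]
    exact h2 _
  obtain ⟨g, hg⟩ := Triangle.coyoneda_exact₃ _ hT' f h1
  have h2 : g = 0 := hM n hn g
  rw [hg, h2]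
  exact zero_comp

/-- Morphisms to a cone lift. -/
lemma NoPos.lift {X R M N : C} {r : R ⟶ M} {p : M ⟶ N} {δ : N ⟶ R⟦(1 : ℤ)⟧}
    (hT : Triangle.mk r p δ ∈ distTriang C) (hR : NoPos X R) (z : X ⟶ N) :
    ∃ z₀ : X ⟶ M, z = z₀ ≫ p :=
  Triangle.coyoneda_exact₃ _ hT z (hR 1 one_pos _)

end

section

variable {C : Type u} [Category.{v} C] [Preadditive C] [HasZeroObject C] [HasShift C ℤ]
  [∀ n : ℤ, (shiftFunctor C n).Additive] [Pretriangulated C] [Linear ℚ C]
  {D : Type u'} [Category.{v'} D] [Preadditive D] [HasZeroObject D] [HasShift D ℤ]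
  [∀ n : ℤ, (shiftFunctor D n).Additive] [Pretriangulated D]
  {E : Type w} [Field E] {ρ : C ⥤ D} [ρ.CommShift ℤ]
  [ρ.IsTriangulated] {H : D ⥤ ModuleCat.{w} E} {I : C} {P V : C → Prop}

omit [Linear ℚ C] in
lemma map_dist {X M N : C} {r : X ⟶ M} {p : M ⟶ N} {δ : N ⟶ X⟦(1 : ℤ)⟧}
    (hT : Triangle.mk r p δ ∈ distTriang C) :
    Triangle.mk (ρ.map r) (ρ.map p) (ρ.map δ ≫ (ρ.commShiftIso (1 : ℤ)).hom.app X) ∈
      distTriang D :=
  ρ.map_distinguished _ hT

variable (h : IsHodge ρ H I P)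

include h

omit [HasZeroObject D] [Pretriangulated D] [∀ n : ℤ, (shiftFunctor D n).Additive]
  [ρ.CommShift ℤ] [ρ.IsTriangulated] in
lemma noPos_motive {N : C} (hN : Resolved P N) : NoPos I N := by
  induction hN with
  | zero h0 => exact NoPos.of_isZero h0
  | cone hT hM _ ih => exact NoPos.cone hT (fun n hn f => h.motive hM n hn f) ih

lemma noPos_hodge {N : C} (hN : Resolved P N) : NoPos (ρ.obj I) (ρ.obj N) := by
  induction hN with
  | zero h0 => exact NoPos.of_isZero (ρ.map_isZero h0)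
  | cone hT hM _ ih => exact NoPos.cone (map_dist hT) (fun n hn f => h.hodge hM n hn f) ih

/-- A morphism from the unit to a resolved object which is zero in the realisation comes from a
morphism to an object of `P`, whose realisation factors through the realisation of a morphism of
`P`. -/
lemma exists_lift {N : C} (hN : Resolved P N) (z : I ⟶ N) (hz : ρ.map z = 0) :
    ∃ (M' M : C) (g : M' ⟶ M) (p : M ⟶ N) (z₀ : I ⟶ M) (η : ρ.obj I ⟶ ρ.obj M'),
      P M' ∧ P M ∧ g ≫ p = 0 ∧ z = z₀ ≫ p ∧ ρ.map z₀ = η ≫ ρ.map g := by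
  cases hN with
  | zero h0 =>
    exact ⟨I, I, 0, 0, 0, 0, h.unit, h.unit, zero_comp,
      (h0.eq_of_tgt _ _), by rw [Functor.map_zero, zero_comp]⟩
  | @cone R₁ M _ r p δ hT hM hR =>
    obtain ⟨z₀, rfl⟩ := NoPos.lift hT (noPos_motive h hR) z
    obtain ⟨ζ, hζ⟩ := Triangle.coyoneda_exact₂ _ (map_dist (ρ := ρ) hT) (ρ.map z₀)
      (by rw [Functor.map_comp] at hz; exact hz)
    have hrp : r ≫ p = 0 := comp_distTriang_mor_zero₁₂ _ hT
    cases hR with
    | zero h0 =>
      refine ⟨I, M, 0, p, z₀, 0, h.unit, hM, zero_comp, rfl, ?_⟩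
      have h1 : ζ = 0 := (ρ.map_isZero h0).eq_of_tgt _ _
      rw [hζ, h1, Functor.map_zero, comp_zero]
      exact zero_comp
    | @cone R₂ M' _ r' p' δ' hT' hM' hR' =>
      obtain ⟨η, rfl⟩ := NoPos.lift (map_dist (ρ := ρ) hT') (noPos_hodge h hR') ζ
      refine ⟨M', M, p' ≫ r, p, z₀, η, hM', hM, ?_, rfl, ?_⟩
      · rw [Category.assoc, hrp, comp_zero]
      · rw [hζ, Functor.map_comp, ← Category.assoc]
        rfl

end

end Pool.Agent.K6.H18.AJ
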