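import Pool.Agent.K6.H18.AJ.Main

/-!
# Reduction to projective varieties
-/

set_option autoImplicit false
set_option linter.unusedSectionVars false
set_option backward.isDefEq.respectTransparency false
set_option backward.defeqAttrib.useBackward true

open CategoryTheory Limits Pretriangulated ZeroObject

namespace Pool.Agent.K6.H18.AJ

universe v u v' u' w

section

variable {C : Type u} [Category.{v} C] [Preadditive C] [HasZeroObject C] [HasShift C ℤ]
  [∀ n : ℤ, (shiftFunctor C n).Additive] [Pretriangulated C]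
  {D : Type u'} [Category.{v'} D] [Preadditive D]
  {E : Type w} [Field E]

/-- Every Hodge class on `M` is algebraic: a morphism from the unit to the realisation of `M` has
the cohomology of a morphism from the unit to `M`. -/
def HodgeAlgebraic (ρ : C ⥤ D) (H : D ⥤ ModuleCat.{w} E) (I M : C) : Prop :=
  ∀ η : ρ.obj I ⟶ ρ.obj M, ∃ y : I ⟶ M, H.map (η - ρ.map y) = 0

/-- The morphism `g` splits off on the intermediate Jacobians by an algebraic correspondence: there
is a morphism `s` in the other direction such that `g ≫ s ≫ g` and `g` agree on the morphisms from the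
unit to the realisation of `M` which are zero in cohomology. -/
def JacobianSplit (ρ : C ⥤ D) (H : D ⥤ ModuleCat.{w} E) (I : C) {M M' : C} (g : M ⟶ M') : Prop :=
  ∃ s : M' ⟶ M, ∀ δ : ρ.obj I ⟶ ρ.obj M, H.map δ = 0 →
    δ ≫ ρ.map (g ≫ s ≫ g) = δ ≫ ρ.map g

/-- The class `V` contains the class `X`, and every object `N` of `V` is the cone of a morphism
`R ⟶ M` with `M` in `X`, where `R` has a resolution with first term `M'` such that all Hodge classes
on `M'` are algebraic and the composition `M' ⟶ M` splits off on the intermediate Jacobians. -/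
structure IsSplitClass (ρ : C ⥤ D) (H : D ⥤ ModuleCat.{w} E) (I : C) (P V X : C → Prop) :
    Prop where
  incl {M : C} : X M → V M
  resolve {N : C} : V N → ∃ (R₂ M' R M : C) (r₂ : R₂ ⟶ M') (q : M' ⟶ R) (δ₂ : R ⟶ R₂⟦(1 : ℤ)⟧)
    (r : R ⟶ M) (p : M ⟶ N) (δ : N ⟶ R⟦(1 : ℤ)⟧), X M ∧ P M' ∧ Resolved P R₂ ∧
    Triangle.mk r₂ q δ₂ ∈ distTriang C ∧ Triangle.mk r p δ ∈ distTriang C ∧
    HodgeAlgebraic ρ H I M' ∧ JacobianSplit ρ H I (q ≫ r)

end

section

variable {C : Type u} [Category.{v} C] [Preadditive C] [HasZeroObject C] [HasShift C ℤ]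
  [∀ n : ℤ, (shiftFunctor C n).Additive] [Pretriangulated C] [Linear ℚ C]
  {D : Type u'} [Category.{v'} D] [Preadditive D] [HasZeroObject D] [HasShift D ℤ]
  [∀ n : ℤ, (shiftFunctor D n).Additive] [Pretriangulated D]
  {E : Type w} [Field E] [CharZero E] {ρ : C ⥤ D} [ρ.CommShift ℤ]
  [ρ.IsTriangulated] {H : D ⥤ ModuleCat.{w} E} [H.Additive] {I : C} {P V X : C → Prop}
  (h : IsHodge ρ H I P)

include h

/-- Injectivity for the projective varieties implies injectivity for the open ones. -/
theorem split_iff (hV : IsSplitClass ρ H I P V X) :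
    (∀ N, V N → Injective ρ I N) ↔ ∀ M, X M → Injective ρ I M := by
  constructor
  · exact fun hinj M hM => hinj M (hV.incl hM)
  · intro hinj N hN z hz
    obtain ⟨R₂, M', R, M, r₂, q, δ₂, r, p, δ, hM, hM', hR₂, h₂, h₁, ha, s, hs⟩ := hV.resolve hN
    have hR : Resolved P R := Resolved.cone h₂ hM' hR₂
    have hrp : r ≫ p = 0 := comp_distTriang_mor_zero₁₂ _ h₁
    obtain ⟨z₀, rfl⟩ := NoPos.lift h₁ (noPos_motive h hR) z
    obtain ⟨ζ, hζ⟩ := Triangle.coyoneda_exact₂ _ (map_dist (ρ := ρ) h₁) (ρ.map z₀)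
      (by rw [Functor.map_comp] at hz; exact hz)
    obtain ⟨η, rfl⟩ := NoPos.lift (map_dist (ρ := ρ) h₂) (noPos_hodge h hR₂) ζ
    have hη : ρ.map z₀ = η ≫ ρ.map (q ≫ r) := by
      rw [hζ, Functor.map_comp, ← Category.assoc]
      rfl
    obtain ⟨y, hy⟩ := ha η
    have h1 : ρ.map (z₀ - y ≫ q ≫ r) = (η - ρ.map y) ≫ ρ.map (q ≫ r) := by
      rw [Functor.map_sub, hη, ρ.map_comp y, Preadditive.sub_comp]
    have h2 : z₀ - y ≫ q ≫ r = (z₀ - y ≫ q ≫ r) ≫ s ≫ q ≫ r := by
      rw [← sub_eq_zero]
      apply hinj M hM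
      rw [Functor.map_sub, Functor.map_comp, h1, Category.assoc, ← Functor.map_comp, hs _ hy,
        sub_self]
    have h3 : (z₀ - y ≫ q ≫ r) ≫ p = 0 := by
      rw [h2, Category.assoc, Category.assoc, Category.assoc, hrp, comp_zero, comp_zero, comp_zero]
    rw [Preadditive.sub_comp, Category.assoc, Category.assoc, hrp, comp_zero, comp_zero,
      sub_zero] at h3
    exact h3

end

end Pool.Agent.K6.H18.AJ
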